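import Pool.Agent.THS.StmtsN

/-!
# THS, row LNA (helper25): nonarchimedean duplication inequality
-/

set_option autoImplicit false

namespace Pool.Agent.THS.H25

open Pool.Agent.THS

theorem le_nv {K ι : Type} [Field K] [Finite ι] (v : AbsoluteValue K ℝ) (x : ι → K) (i : ι) :
    v (x i) ≤ nv v x :=
  le_ciSup (f := fun i => v (x i)) (Set.finite_range _).bddAbove i

theorem nv_nonneg {K ι : Type} [Field K] (v : AbsoluteValue K ℝ) (x : ι → K) : 0 ≤ nv v x :=
  Real.iSup_nonneg fun i => v.nonneg _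

theorem v_sgn {K : Type} [Field K] (v : AbsoluteValue K ℝ) {g : ℕ} (b c : Fin g → ZMod 2) :
    v ((sgn b c : ℤ) : K) = 1 := by
  unfold sgn
  rw [Int.cast_pow, Int.cast_neg, Int.cast_one, map_pow, AbsoluteValue.map_neg, map_one, one_pow]

theorem lna (hO : OrtStatement) : LnaStatement := by
  intro K _ v g S D Z hv h
  classical
  -- the largest coordinate of `S`
  obtain ⟨c0, hc0⟩ : ∃ c0, v (S c0) = nv v S := by
    obtain ⟨c, hc⟩ := exists_eq_ciSup_of_finite (f := fun i => v (S i))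
    exact ⟨c, hc⟩
  -- inversion
  have hinv : ∑ b : Fin g → ZMod 2, ((sgn b c0 : ℤ) : K) * ∑ c, ((sgn b c : ℤ) : K) * S c ^ 2 =
      2 ^ g * S c0 ^ 2 := by
    have h1 : ∀ c, ∑ b : Fin g → ZMod 2, ((sgn b c0 : ℤ) : K) * (((sgn b c : ℤ) : K) * S c ^ 2) =
        (if c = c0 then 2 ^ g * S c ^ 2 else 0) := by
      intro c
      have h2 := hO g c c0
      have h3 : ∑ b : Fin g → ZMod 2, ((sgn b c : ℤ) : K) * ((sgn b c0 : ℤ) : K) =
          if c = c0 then (2 : K) ^ g else 0 := by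
        have h4 := congrArg (fun z : ℤ => (z : K)) h2
        simp only [Int.cast_sum, Int.cast_mul] at h4
        rw [h4]
        split_ifs
        · push_cast
          rfl
        · exact Int.cast_zero
      have h5 : ∑ b : Fin g → ZMod 2, ((sgn b c0 : ℤ) : K) * (((sgn b c : ℤ) : K) * S c ^ 2) =
          (∑ b : Fin g → ZMod 2, ((sgn b c : ℤ) : K) * ((sgn b c0 : ℤ) : K)) * S c ^ 2 := by
        rw [Finset.sum_mul]
        apply Finset.sum_congr rfl
        intro b _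
        ring
      rw [h5, h3]
      split_ifs
      · rfl
      · rw [zero_mul]
    have h6 : ∑ b : Fin g → ZMod 2, ((sgn b c0 : ℤ) : K) * ∑ c, ((sgn b c : ℤ) : K) * S c ^ 2 =
        ∑ c, ∑ b : Fin g → ZMod 2, ((sgn b c0 : ℤ) : K) * (((sgn b c : ℤ) : K) * S c ^ 2) := by
      rw [Finset.sum_comm]
      apply Finset.sum_congr rfl
      intro b _
      rw [Finset.mul_sum]
    rw [h6, Finset.sum_congr rfl fun c _ => h1 c, Finset.sum_ite_eq' Finset.univ c0,
      if_pos (Finset.mem_univ _)]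
  have hne : (Finset.univ : Finset (Fin g → ZMod 2)).Nonempty := Finset.univ_nonempty
  -- a dominating `Q b`
  obtain ⟨b, -, hb⟩ := hv.finset_image_add_of_nonempty
    (fun b : Fin g → ZMod 2 => ((sgn b c0 : ℤ) : K) * ∑ c, ((sgn b c : ℤ) : K) * S c ^ 2) hne
  rw [hinv, map_mul, map_pow, map_pow, map_mul, v_sgn, one_mul, hc0] at hb
  -- the bound for `Q b ^ 2`
  have hD0 := nv_nonneg v D
  have hZ0 := nv_nonneg v Z
  have hA : v (∑ c, ((sgn b c : ℤ) : K) * (D c * Z c)) ≤ nv v D * nv v Z := by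
    obtain ⟨c, -, hc⟩ := hv.finset_image_add_of_nonempty
      (fun c : Fin g → ZMod 2 => ((sgn b c : ℤ) : K) * (D c * Z c)) hne
    rw [map_mul, v_sgn, one_mul, map_mul] at hc
    exact hc.trans (mul_le_mul (le_nv v D c) (le_nv v Z c) (v.nonneg _) hD0)
  have hB : v (∑ c, ((sgn b c : ℤ) : K) * Z c ^ 2) ≤ nv v Z ^ 2 := by
    obtain ⟨c, -, hc⟩ := hv.finset_image_add_of_nonempty
      (fun c : Fin g → ZMod 2 => ((sgn b c : ℤ) : K) * Z c ^ 2) hne
    rw [map_mul, v_sgn, one_mul, map_pow] at hc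
    exact hc.trans (pow_le_pow_left₀ (v.nonneg _) (le_nv v Z c) 2)
  have hQ : v (∑ c, ((sgn b c : ℤ) : K) * S c ^ 2) ^ 2 ≤ nv v D * nv v Z ^ 3 := by
    rw [← map_pow, h b, map_mul]
    calc v (∑ c, ((sgn b c : ℤ) : K) * (D c * Z c)) * v (∑ c, ((sgn b c : ℤ) : K) * Z c ^ 2)
        ≤ (nv v D * nv v Z) * nv v Z ^ 2 :=
          mul_le_mul hA hB (v.nonneg _) (mul_nonneg hD0 hZ0)
      _ = nv v D * nv v Z ^ 3 := by ring
  have hS0 := nv_nonneg v S
  calc v 2 ^ (2 * g) * nv v S ^ 4 = (v 2 ^ g * nv v S ^ 2) ^ 2 := by ring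
    _ ≤ v (∑ c, ((sgn b c : ℤ) : K) * S c ^ 2) ^ 2 :=
        pow_le_pow_left₀ (mul_nonneg (pow_nonneg (v.nonneg _) _) (pow_nonneg hS0 _)) hb 2
    _ ≤ nv v D * nv v Z ^ 3 := hQ

end Pool.Agent.THS.H25
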